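import Mathlib

namespace Pool.Agent.H.MP_1ca924_an

open Set Metric MeasureTheory Filter Topology Complex
open scoped ENNReal

def Sup (Ω : Set ℂ) (v : ℂ → ℝ≥0∞) : Prop :=
  LowerSemicontinuousOn v Ω ∧
    ∀ x r, 0 < r → closedBall x r ⊆ Ω → ∫⁻ z in ball x r, v z ≤ v x * volume (ball x r)

lemma Sup.mono {Ω G : Set ℂ} {v : ℂ → ℝ≥0∞} (h : Sup Ω v) (hG : G ⊆ Ω) : Sup G v :=
  ⟨h.1.mono hG, fun x r r0 hr => h.2 x r r0 (hr.trans hG)⟩

lemma Sup.ev {Ω : Set ℂ} {v : ℂ → ℝ≥0∞} (h : Sup Ω v) (hΩ : IsOpen Ω) {x : ℂ} (hx : x ∈ Ω)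
    {c : ℝ≥0∞} (hc : c < v x) : ∀ᶠ z in 𝓝 x, c < v z := by
  have := h.1 x hx c hc
  rwa [hΩ.nhdsWithin_eq hx] at this

lemma Sup.meas {Ω : Set ℂ} {v : ℂ → ℝ≥0∞} (h : Sup Ω v) {s : Set ℂ} (hs : IsOpen s) (hsΩ : s ⊆ Ω) :
    AEMeasurable v (volume.restrict s) := by
  refine (aemeasurable_indicator_iff hs.measurableSet).1 (LowerSemicontinuous.measurable
    fun x c hc => ?_).aemeasurable
  beta_reduce at hc ⊢
  by_cases hx : x ∈ s
  · rw [indicator_of_mem hx] at hc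
    filter_upwards [(h.mono hsΩ).ev hs hx hc, hs.mem_nhds hx] with z h1 h2
    rwa [indicator_of_mem h2]
  · simp [indicator_of_notMem hx] at hc

lemma mp0 {G : Set ℂ} (hG : IsOpen G) (hb : Bornology.IsBounded G) {φ : ℂ → ℝ≥0∞} (h : Sup G φ)
    {κ : ℝ≥0∞} (hκ : ∀ ζ ∈ frontier G, ∀ c < κ, ∀ᶠ z in 𝓝[G] ζ, c < φ z) : ∀ z ∈ G, κ ≤ φ z := by
  intro z0 hz0
  by_contra hc
  push Not at hc
  have cp : ∀ c < κ, IsCompact {z | z ∈ G ∧ φ z ≤ c} := fun c hc =>
    isCompact_of_isClosed_isBounded (isClosed_of_closure_subset fun ζ hζ => by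
      have h1 := mem_closure_iff_frequently.1 hζ
      by_cases h2 : ζ ∈ G
      · refine ⟨h2, not_lt.1 fun h3 => ?_⟩
        obtain ⟨z, h4, h5⟩ := (h1.and_eventually (h.ev hG h2 h3)).exists
        exact absurd h4.2 (not_le.2 h5)
      · have h3 := hκ ζ (hG.frontier_eq ▸ ⟨closure_mono (fun _ h => h.1) hζ, h2⟩) c hc
        obtain ⟨z, h4, h5⟩ := (h1.and_eventually (eventually_nhdsWithin_iff.1 h3)).exists
        exact absurd h4.2 (not_le.2 (h5 h4.1))) (hb.subset fun _ h => h.1)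
  obtain ⟨x, hx, H⟩ := LowerSemicontinuousOn.exists_isMinOn (s := {z | z ∈ G ∧ φ z ≤ φ z0})
    ⟨z0, hz0, le_rfl⟩ (cp _ hc)
    (h.1.mono fun _ h => h.1)
  have h1 : ∀ z ∈ G, φ x ≤ φ z := fun z hz => by
    rcases le_total (φ z) (φ z0) with h | h
    · exact isMinOn_iff.1 H z ⟨hz, h⟩
    · exact hx.2.trans h
  have h2 := hx.2.trans_lt hc
  obtain ⟨y, hy, H2⟩ := (cp _ h2).exists_isMaxOn ⟨x, hx.1, le_rfl⟩ continuous_re.continuousOn
  obtain ⟨r, r0, hr⟩ := Metric.nhds_basis_closedBall.mem_iff.1 (hG.mem_nhds hy.1)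
  have h3 := ball_subset_closedBall.trans hr
  have h4 := lintegral_strict_mono_of_ae_le_of_ae_lt_on (f := fun _ => φ x) (h.meas isOpen_ball h3)
    (by rw [setLIntegral_const]; exact ENNReal.mul_ne_top h2.ne_top measure_ball_lt_top.ne)
    (ae_restrict_of_forall_mem measurableSet_ball fun z hz => h1 z (h3 hz)) (s := {z | y.re < z.re})
    (by
      have ho : IsOpen {z : ℂ | y.re < z.re} := isOpen_lt continuous_const continuous_re
      rw [Measure.restrict_apply ho.measurableSet]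
      refine ((ho.inter isOpen_ball).measure_pos _ ⟨y + (r / 2 : ℝ), by simpa using r0, ?_⟩).ne'
      rw [mem_ball, dist_self_add_left, norm_real, Real.norm_of_nonneg (by positivity)]
      linarith)
    (ae_restrict_of_forall_mem measurableSet_ball fun z hz h5 => not_le.1 fun h6 =>
      absurd (isMaxOn_iff.1 H2 z ⟨h3 hz, h6⟩) (not_le.2 h5))
  rw [setLIntegral_const] at h4
  exact absurd ((h.2 y r r0 hr).trans (mul_le_mul_left hy.2 _)) (not_le.2 h4)

lemma cint {F : Type} [NormedAddCommGroup F] {f : ℂ → F} (hf : Continuous f) (c : ℂ) (r : ℝ) :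
    IntegrableOn f (ball c r) :=
  (hf.continuousOn.integrableOn_compact (isCompact_closedBall c r)).mono_set ball_subset_closedBall

lemma mono0 (j : ℕ) (ρ : ℝ) : ∫ z in ball (0 : ℂ) ρ, z ^ (j + 1) = 0 := by
  obtain ⟨ω, hω⟩ : ∃ ω : Circle, (ω : ℂ) ^ (j + 1) = -1 := ⟨Circle.exp (Real.pi / (j + 1)), by
    rw [Circle.coe_exp, ← exp_nat_mul, ← exp_pi_mul_I]
    congr 1
    push_cast
    field_simp⟩
  have h := (rotation ω).measurePreserving.setIntegral_preimage_emb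
    (rotation ω).toHomeomorph.measurableEmbedding (fun z : ℂ => z ^ (j + 1)) (ball 0 ρ)
  have h2 : rotation ω ⁻¹' ball 0 ρ = ball 0 ρ := by
    ext z; rw [mem_preimage, mem_ball_zero_iff, mem_ball_zero_iff, LinearIsometryEquiv.norm_map]
  simp only [h2, rotation_apply, mul_pow, hω, integral_const_mul] at h
  linear_combination (-1 / 2 : ℂ) * h

lemma mv (α β : ℂ) (n : ℕ) (c : ℂ) (ρ : ℝ) :
    ∫ z in ball c ρ, (α * z + β) ^ n = volume.real (ball c ρ) * (α * c + β) ^ n := by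
  have h := (measurePreserving_add_left volume c).setIntegral_preimage_emb
    (Homeomorph.addLeft c).measurableEmbedding (fun z : ℂ => (α * z + β) ^ n) (ball c ρ)
  have h2 : (fun z => c + z) ⁻¹' ball c ρ = ball 0 ρ := by ext z; simp
  have h3 : ∀ z, α * (c + z) + β = α * z + (α * c + β) := fun z => by ring
  rw [← h, h2]
  simp only [h3, add_pow, mul_pow]
  rw [integral_finsetSum _ fun i _ => cint (by fun_prop) _ _, Finset.sum_range_succ',
    Finset.sum_eq_zero fun i _ => by simp only [integral_mul_const, integral_const_mul, mono0]; simp]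
  simp [Measure.real, Measure.addHaar_ball_center volume c]

def Hm (b : ℂ → ℝ) : Prop :=
  Continuous b ∧ ∀ c ρ, ∫ z in ball c ρ, b z = volume.real (ball c ρ) * b c

lemma Hm.lin {b b' : ℂ → ℝ} (h : Hm b) (h' : Hm b') (s t : ℝ) : Hm fun z => s * b z + t * b' z := by
  refine ⟨(continuous_const.mul h.1).add (continuous_const.mul h'.1), fun c ρ => ?_⟩
  rw [integral_add ((cint h.1 c ρ).const_mul _) ((cint h'.1 c ρ).const_mul _), integral_const_mul,
    integral_const_mul, h.2, h'.2]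
  ring

lemma hm_const (t : ℝ) : Hm fun _ => t := ⟨continuous_const, fun c ρ => by simp⟩

lemma hm_re (α β : ℂ) (n : ℕ) : Hm fun z => ((α * z + β) ^ n).re := ⟨by fun_prop, fun c ρ => by
  have := integral_re (cint (by fun_prop : Continuous fun z => (α * z + β) ^ n) c ρ)
  simp only [RCLike.re_to_complex] at this
  rw [this, mv, re_ofReal_mul]⟩

lemma hm_im (α β : ℂ) (n : ℕ) : Hm fun z => ((α * z + β) ^ n).im := ⟨by fun_prop, fun c ρ => by
  have := integral_im (cint (by fun_prop : Continuous fun z => (α * z + β) ^ n) c ρ)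
  simp only [RCLike.im_to_complex] at this
  rw [this, mv, im_ofReal_mul]⟩

lemma Hm.lint {b : ℂ → ℝ} (h : Hm b) {x : ℂ} {r : ℝ} (h0 : ∀ z ∈ ball x r, 0 ≤ b z) :
    ∫⁻ z in ball x r, ENNReal.ofReal (b z) = ENNReal.ofReal (b x) * volume (ball x r) := by
  rw [← ofReal_integral_eq_lintegral_ofReal (cint h.1 x r)
    (ae_restrict_of_forall_mem measurableSet_ball h0), h.2, ENNReal.ofReal_mul measureReal_nonneg,
    ofReal_measureReal measure_ball_lt_top.ne, mul_comm]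

lemma mp1 {G : Set ℂ} (hG : IsOpen G) (hb : Bornology.IsBounded G) {v : ℂ → ℝ≥0∞} (h : Sup G v)
    {b : ℂ → ℝ} (hm : Hm b)
    (H : ∀ ζ ∈ frontier G, ∀ t < b ζ, ∀ᶠ z in 𝓝[G] ζ, ENNReal.ofReal t ≤ v z) :
    ∀ z ∈ G, ENNReal.ofReal (b z) ≤ v z := by
  obtain ⟨K, hK⟩ := hb.isCompact_closure.bddAbove_image hm.1.continuousOn
  replace hK : ∀ z ∈ closure G, b z ≤ K := fun z hz => hK (mem_image_of_mem _ hz)
  have h1 : Hm fun z => K - b z := by simpa [sub_eq_add_neg] using (hm_const K).lin hm 1 (-1)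
  have h2 : Continuous fun z => ENNReal.ofReal (K - b z) := ENNReal.continuous_ofReal.comp h1.1
  have h3 := mp0 hG hb (φ := fun z => v z + ENNReal.ofReal (K - b z)) ⟨h.1.add
    (h2.lowerSemicontinuous.lowerSemicontinuousOn G), fun x r r0 hr => by
      beta_reduce
      rw [lintegral_add_right _ h2.measurable, h1.lint fun z hz => sub_nonneg.2
        (hK z (subset_closure (hr (ball_subset_closedBall hz)))), add_mul]
      exact add_le_add_left (h.2 x r r0 hr) _⟩ (κ := ENNReal.ofReal K) fun ζ hζ c hc => by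
    obtain ⟨s, -, s1, s2⟩ := ENNReal.lt_iff_exists_real_btwn.1 hc
    rw [ENNReal.ofReal_lt_ofReal_iff'] at s2
    filter_upwards [H ζ hζ (b ζ - (K - s) / 2) (by linarith), eventually_nhdsWithin_of_eventually_nhds
      (hm.1.continuousAt.eventually (gt_mem_nhds (show b ζ < b ζ + (K - s) / 2 by linarith)))] with z h4 h5
    refine s1.trans_le (le_trans ?_ (add_le_add_left h4 _))
    exact (ENNReal.ofReal_le_ofReal (by linarith)).trans ENNReal.ofReal_add_le
  intro z hz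
  rcases le_total (b z) 0 with h4 | h4
  · simp [ENNReal.ofReal_of_nonpos h4]
  have h5 := h3 z hz
  rw [show K = b z + (K - b z) by ring, ENNReal.ofReal_add h4 (sub_nonneg.2 (hK z (subset_closure hz))),
    show b z + (K - b z) - b z = K - b z by ring] at h5
  exact (ENNReal.add_le_add_iff_right ENNReal.ofReal_ne_top).1 h5

def Bn (v : ℂ → ℝ≥0∞) (z : ℂ) (ρ L : ℝ) : Prop :=
  ∫⁻ y in ball z ρ, v y ≤ ENNReal.ofReal L * volume (ball z ρ)

lemma vb (z z' : ℂ) {s t K : ℝ} (hs : 0 ≤ s) (ht : 0 ≤ t) (h : s ^ 2 ≤ K * t ^ 2) (hK : 0 ≤ K) :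
    volume (ball z s) ≤ ENNReal.ofReal K * volume (ball z' t) := by
  rw [Complex.volume_ball, Complex.volume_ball, ← mul_assoc, ← ENNReal.ofReal_pow hs,
    ← ENNReal.ofReal_pow ht, ← ENNReal.ofReal_mul hK]
  gcongr

lemma Bn.shr {v : ℂ → ℝ≥0∞} {z : ℂ} {ρ ρ' L K : ℝ} (h : Bn v z ρ L) (h0 : 0 ≤ ρ') (h1 : ρ' ≤ ρ)
    (h2 : ρ ^ 2 ≤ K * ρ' ^ 2) (hK : 0 ≤ K) : Bn v z ρ' (K * L) := by
  refine (lintegral_mono_set (ball_subset_ball h1)).trans (h.trans ?_)
  rw [ENNReal.ofReal_mul hK, mul_comm (ENNReal.ofReal K), mul_assoc]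
  exact mul_le_mul_right (vb z z (h0.trans h1) h0 h2 hK) _

lemma step {Ω : Set ℂ} {v : ℂ → ℝ≥0∞} (h : Sup Ω v) {z z' : ℂ} {ρ ρ' L : ℝ} (h0 : 0 < ρ)
    (h1 : ball z (8 * ρ) ⊆ Ω) (h2 : ‖z' - z‖ ≤ ρ) (h3 : ρ / 2 ≤ ρ') (h4 : ρ' ≤ ρ) (hB : Bn v z ρ L) :
    Bn v z' ρ' (36 * L) := by
  have h5 : ∀ y ∈ ball z ρ, ∫⁻ w in ball z' ρ', v w ≤ v y * volume (ball z (3 * ρ)) := fun y hy => by
    have h6 := mem_ball_iff_norm.1 hy
    rw [Measure.addHaar_ball_center, ← Measure.addHaar_ball_center volume y]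
    refine (lintegral_mono_set (ball_subset_ball' ?_)).trans (h.2 y _ (by positivity)
      ((closedBall_subset_ball' ?_).trans h1))
    · rw [dist_eq_norm]
      linarith [norm_sub_le_norm_sub_add_norm_sub z' z y, norm_sub_rev z y]
    · rw [dist_eq_norm]; linarith
  have h6 := setLIntegral_mono' (μ := volume) measurableSet_ball h5
  rw [setLIntegral_const, lintegral_mul_const' _ _ measure_ball_lt_top.ne] at h6
  have h7 := h6.trans (mul_le_mul_left hB _)
  rw [mul_right_comm, ENNReal.mul_le_mul_iff_left (measure_ball_pos _ _ h0).ne' measure_ball_lt_top.ne] at h7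
  refine h7.trans ?_
  rw [ENNReal.ofReal_mul (by norm_num), mul_comm (ENNReal.ofReal 36), mul_assoc]
  exact mul_le_mul_right (vb z z' (by positivity) (by linarith) (by nlinarith) (by norm_num)) _

lemma chain {Ω : Set ℂ} {v : ℂ → ℝ≥0∞} (h : Sup Ω v) {q d : ℂ} {ρ θ L : ℝ} (h0 : 0 < ρ) (θ0 : 0 < θ)
    (θ1 : θ ≤ 1 / 2) (h1 : θ * ‖d‖ ≤ ρ) (h2 : ∀ σ : ℝ, 0 < σ → σ ≤ 1 → ball (q + σ * d) (8 * (σ * ρ)) ⊆ Ω)
    (hB : Bn v (q + d) ρ L) (j : ℕ) : ∀ τ : ℝ, (1 - θ) ^ j ≤ τ → τ ≤ 1 →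
      Bn v (q + τ * d) (τ * ρ) (36 ^ j * L) := by
  induction j with
  | zero =>
    intro τ h3 h4
    obtain rfl : τ = 1 := le_antisymm h4 (by simpa using h3)
    simpa using hB
  | succ j ih =>
    intro τ h3 h4
    have θ2 : 0 < 1 - θ := by linarith
    have τ0 : 0 < τ := (pow_pos θ2 _).trans_le h3
    obtain ⟨s, hs⟩ : ∃ s, s = min 1 (τ / (1 - θ)) := ⟨_, rfl⟩
    have s1 : s ≤ 1 := hs ▸ min_le_left _ _
    have s2 : s * (1 - θ) ≤ τ := (le_div_iff₀ θ2).1 (hs ▸ min_le_right _ _)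
    have s3 : τ ≤ s := hs ▸ le_min h4 ((le_div_iff₀ θ2).2 (by nlinarith))
    have s0 := τ0.trans_le s3
    have h5 := step h (mul_pos s0 h0) (h2 s s0 s1) (z' := q + τ * d) (ρ' := τ * ρ) (by
      rw [show q + τ * d - (q + s * d) = -(((s - τ : ℝ) : ℂ) * d) by push_cast; ring, norm_neg, norm_mul,
        norm_real, Real.norm_of_nonneg (by linarith)]
      nlinarith [norm_nonneg d, mul_le_mul_of_nonneg_left h1 s0.le]) (by
        have : s / 2 ≤ τ := by nlinarith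
        nlinarith) (by gcongr)
      (ih s (hs ▸ le_min (pow_le_one₀ θ2.le (by linarith)) ((le_div_iff₀ θ2).2 (by rwa [← pow_succ]))) s1)
    rwa [← mul_assoc, ← pow_succ'] at h5

lemma fin {Ω : Set ℂ} {v w : ℂ → ℝ≥0∞} (h : Sup Ω v) (h' : Sup Ω w) {c : ℝ}
    (hc : ∀ z ∈ Ω, ENNReal.ofReal c ≤ v z + w z) {z : ℂ} {ρ L : ℝ} (h0 : 0 < ρ)
    (h1 : closedBall z ρ ⊆ Ω) (hB : Bn v z ρ L) : ENNReal.ofReal c ≤ w z + ENNReal.ofReal L := by
  have h2 := ball_subset_closedBall.trans h1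
  have h3 := setLIntegral_mono' (μ := volume) measurableSet_ball fun y hy => hc y (h2 hy)
  rw [setLIntegral_const, lintegral_add_left' (h.meas isOpen_ball h2)] at h3
  have h4 := h3.trans (add_le_add hB (h'.2 z ρ h0 h1))
  rwa [← add_mul, ENNReal.mul_le_mul_iff_left (measure_ball_pos _ _ h0).ne' measure_ball_lt_top.ne,
    add_comm] at h4

end Pool.Agent.H.MP_1ca924_an
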