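import Pool.Agent.H.MP_1ca924_an.A

namespace Pool.Agent.H.MP_1ca924_an

open Set Metric MeasureTheory Filter Topology Complex
open scoped ENNReal

def Sc (a b : ℝ) : Set ℂ := {z | a * z.re < z.im ∧ z.im < b * z.re ∧ z.re < 2}
def Ch : Set ℂ := {z | 1 < z.re ∧ z.re < 2 ∧ 0 < z.im ∧ z.im < 1}

lemma Sc_open (a b : ℝ) : IsOpen (Sc a b) := (isOpen_lt (by fun_prop) continuous_im).inter
  ((isOpen_lt continuous_im (by fun_prop)).inter (isOpen_lt continuous_re continuous_const))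

lemma Sc_cl {a b : ℝ} {z : ℂ} (h : z ∈ closure (Sc a b)) : a * z.re ≤ z.im ∧ z.im ≤ b * z.re :=
  closure_minimal (t := {z : ℂ | a * z.re ≤ z.im ∧ z.im ≤ b * z.re}) (fun _ h => ⟨h.1.le, h.2.1.le⟩)
    ((isClosed_le (by fun_prop) continuous_im).inter (isClosed_le continuous_im (by fun_prop))) h

lemma bl {z w : ℂ} {ρ : ℝ} (h : w ∈ ball z ρ) : |w.re - z.re| < ρ ∧ |w.im - z.im| < ρ :=
  ⟨(abs_re_le_norm (w - z)).trans_lt (mem_ball_iff_norm.1 h),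
    (abs_im_le_norm (w - z)).trans_lt (mem_ball_iff_norm.1 h)⟩

lemma inS {a b ρ : ℝ} (a0 : 0 ≤ a) (ab : a ≤ b) (b1 : b ≤ 1) {z : ℂ} (h1 : 2 * ρ ≤ z.im - a * z.re)
    (h2 : 2 * ρ ≤ b * z.re - z.im) (h3 : z.re + ρ ≤ 2) : ball z ρ ⊆ Sc a b := fun w hw => by
  obtain ⟨h4, h5⟩ := bl hw
  have h6 := abs_nonneg (w.re - z.re)
  rw [abs_lt] at h4 h5
  refine ⟨?_, ?_, by linarith⟩ <;> nlinarith

noncomputable def g (c : ℝ) (w : ℂ → ℝ≥0∞) (z : ℂ) : ℝ := (ENNReal.ofReal c - w z).toReal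

lemma g0 (c : ℝ) (w : ℂ → ℝ≥0∞) (z : ℂ) : 0 ≤ g c w z := ENNReal.toReal_nonneg

lemma gle {c β : ℝ} {w : ℂ → ℝ≥0∞} {z : ℂ} (h : 0 ≤ β) :
    g c w z ≤ β ↔ ENNReal.ofReal c ≤ w z + ENNReal.ofReal β := by
  rw [g, ← ENNReal.le_ofReal_iff_toReal_le (ENNReal.sub_ne_top ENNReal.ofReal_ne_top) h, tsub_le_iff_left]

lemma cmp {Ω G : Set ℂ} (hΩ : IsOpen Ω) (hG : IsOpen G) (hb : Bornology.IsBounded G) (hGΩ : G ⊆ Ω)
    {w : ℂ → ℝ≥0∞} (h : Sup Ω w) {c : ℝ} {β : ℂ → ℝ} (hm : Hm β)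
    (H : ∀ ζ ∈ frontier G, (0 ≤ β ζ ∧ ∀ t < c, ∀ᶠ z in 𝓝[Ω] ζ, ENNReal.ofReal t ≤ w z) ∨
      (ζ ∈ Ω ∧ g c w ζ ≤ β ζ)) (z : ℂ) (hz : z ∈ G) (h0 : 0 ≤ β z) : g c w z ≤ β z := by
  have h1 := mp1 hG hb (h.mono hGΩ) ((hm_const c).lin hm 1 (-1)) (fun ζ hζ t ht => by
    rcases H ζ hζ with ⟨h1, h2⟩ | ⟨h1, h2⟩
    · exact (h2 t (by linarith)).filter_mono (nhdsWithin_mono _ hGΩ)
    rcases le_or_gt t 0 with h3 | h3
    · simp [ENNReal.ofReal_of_nonpos h3]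
    have h4 := (g0 _ _ _).trans h2
    refine eventually_nhdsWithin_of_eventually_nhds ((h.ev hΩ h1 (not_le.1 fun h5 => ?_)).mono
      fun _ h => h.le)
    have h6 := ((gle h4).1 h2).trans (add_le_add_left h5 _)
    rw [← ENNReal.ofReal_add h3.le h4, ENNReal.ofReal_le_ofReal_iff (by positivity)] at h6
    linarith) z hz
  exact (gle h0).2 (le_trans ((ENNReal.ofReal_le_ofReal (by linarith)).trans ENNReal.ofReal_add_le)
    (add_le_add_left h1 _))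

lemma bern {u : ℝ} {N : ℕ} (u0 : 0 ≤ u) (u1 : u ≤ 1) (h : 1 ≤ N * u) : (1 - u) ^ N ≤ 1 / 2 := by
  have h1 := one_add_mul_le_pow (a := u) (by linarith) N
  have h2 : (1 - u) ^ N * (1 + u) ^ N ≤ 1 := by
    rw [← mul_pow]; exact pow_le_one₀ (by nlinarith) (by nlinarith)
  nlinarith [pow_nonneg (sub_nonneg.2 u1) N]

lemma pw {u : ℂ} {m : ℕ} (h : m * ‖u‖ ≤ 1 / 3) : ‖(1 + u) ^ m - 1‖ ≤ 1 / 2 := by
  have h1 : ∀ j : ℕ, ‖(1 + u) ^ j - 1‖ ≤ (1 + ‖u‖) ^ j - 1 := fun j => by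
    induction j with
    | zero => simp
    | succ j ih =>
      rw [show (1 + u) ^ (j + 1) - 1 = ((1 + u) ^ j - 1) * (1 + u) + u by ring, pow_succ]
      refine (norm_add_le _ _).trans ?_
      rw [norm_mul]
      have h2 : ‖1 + u‖ ≤ 1 + ‖u‖ := by simpa using norm_add_le 1 u
      nlinarith [mul_le_mul ih h2 (norm_nonneg _) ((norm_nonneg _).trans ih)]
  refine (h1 m).trans ?_
  rcases m with _ | m
  · simp
  have u1 : ‖u‖ ≤ 1 := by push_cast at h; nlinarith [norm_nonneg u, m.cast_nonneg (α := ℝ)]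
  have h2 := one_add_mul_le_pow (a := -‖u‖) (by linarith) (m + 1)
  have h3 : (1 + -‖u‖) ^ (m + 1) * (1 + ‖u‖) ^ (m + 1) ≤ 1 := by
    rw [← mul_pow]; exact pow_le_one₀ (by nlinarith [norm_nonneg u]) (by nlinarith [sq_nonneg ‖u‖])
  nlinarith [pow_nonneg (by positivity : 0 ≤ 1 + ‖u‖) (m + 1)]

lemma pol {z : ℂ} (x0 : z.re ≠ 0) : z = z.re * (1 + ((z.im / z.re : ℝ) : ℂ) * I) := by
  apply Complex.ext <;> simp only [mul_re, mul_im, add_re, add_im, ofReal_re, ofReal_im, I_re, I_im,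
    one_re, one_im] <;> field_simp <;> ring

lemma sec {a b X : ℝ} {m : ℕ} (a0 : 0 ≤ a) (ab : a < b) (hm : m * b ≤ 1 / 3) (m0 : m ≠ 0) (X0 : 0 < X)
    {z : ℂ} (h1 : a * z.re ≤ z.im) (h2 : z.im ≤ b * z.re) :
    (z.re / X) ^ m / 2 ≤ ((((X⁻¹ : ℝ) : ℂ) * z + 0) ^ m).re ∧
      ((((X⁻¹ : ℝ) : ℂ) * z + 0) ^ m).re ≤ 3 / 2 * (z.re / X) ^ m := by
  have x0 : 0 ≤ z.re := by nlinarith
  rcases x0.eq_or_lt with h | h
  · have : z = 0 := Complex.ext h.symm (by rw [← h] at h1 h2; simp only [zero_im]; linarith)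
    simp [this, m0]
  have h3 := pw (u := ((z.im / z.re : ℝ) : ℂ) * I) (m := m) (by
    rw [norm_mul, norm_I, mul_one, norm_real, Real.norm_of_nonneg (div_nonneg (by nlinarith) x0)]
    exact (mul_le_mul_of_nonneg_left ((div_le_iff₀ h).2 h2) m.cast_nonneg).trans hm)
  have h4 := abs_le.1 ((abs_re_le_norm _).trans h3)
  have h5 : (((X⁻¹ : ℝ) : ℂ) * z + 0) ^ m = (((z.re / X) ^ m : ℝ) : ℂ) *
      (1 + ((z.im / z.re : ℝ) : ℂ) * I) ^ m := by
    conv_lhs => rw [pol h.ne']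
    rw [add_zero, ← mul_assoc, mul_pow]
    push_cast
    ring
  rw [h5, re_ofReal_mul]
  simp only [sub_re, one_re] at h4
  have : 0 ≤ (z.re / X) ^ m := by positivity
  constructor <;> nlinarith

lemma quad {ζ : ℂ} (h0 : 0 ≤ ζ.im) (h1 : ‖ζ‖ ≤ 1) : 0 ≤ 1 * (ζ ^ 2).re + 2 * (ζ ^ 1).im ∧
    1 * (ζ ^ 2).re + 2 * (ζ ^ 1).im ≤ 3 * ‖ζ‖ ∧ (‖ζ‖ = 1 → 1 ≤ 1 * (ζ ^ 2).re + 2 * (ζ ^ 1).im) := by
  have h2 : ‖ζ‖ ^ 2 = ζ.re ^ 2 + ζ.im ^ 2 := by rw [Complex.sq_norm, normSq_apply]; ring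
  have h3 := im_le_norm ζ
  have h4 : (ζ ^ 2).re = ζ.re ^ 2 - ζ.im ^ 2 := by rw [sq, mul_re]; ring
  rw [h4, pow_one]
  refine ⟨by nlinarith, by nlinarith [norm_nonneg ζ], fun h => ?_⟩
  rw [h] at h2
  nlinarith

variable {Ω : Set ℂ} {v w : ℂ → ℝ≥0∞} {a b c V X : ℝ} {n J : ℕ}

lemma gr (hv : Sup Ω v) (hw : Sup Ω w) (hc : ∀ z ∈ Ω, ENNReal.ofReal c ≤ v z + w z) (V0 : 0 ≤ V)
    (hV : v (3 / 2 + I / 2) ≤ ENNReal.ofReal V) (hS : Sc a b ⊆ Ω) (hC : Ch ⊆ Ω) (n1 : 64 ≤ n)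
    (p1 : 1 ≤ n * a) (p2 : 2 ≤ n * (b - a)) (p3 : n * b ≤ 20) (hJ : (1 / 2 : ℝ) ^ J ≤ X / 3)
    {x e τ : ℝ} (x1 : X / 2 ≤ x) (x2 : x ≤ 1) (he : e = a ∨ e = b) (τ0 : 0 < τ) (τ1 : τ ≤ 1) :
    g c w (x * (1 + e * I) + τ * (x * ((a + b) / 2 - e : ℝ) * I)) * τ ^ 56 ≤
      36 * (36 ^ (32 * n * J) * (1600 * (36 ^ (8 * n) * V))) := by
  have N : (64 : ℝ) ≤ n := by exact_mod_cast n1
  have a0 : 0 < a := by nlinarith
  have ab : a < b := by nlinarith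
  have b1 : b ≤ 1 / 3 := by nlinarith
  obtain ⟨s, hs⟩ : ∃ s, s = (a + b) / 2 := ⟨_, rfl⟩
  obtain ⟨h, hh⟩ : ∃ h, h = (b - a) / 2 := ⟨_, rfl⟩
  have h0 : 0 < h := by linarith
  have x0 : 0 < x := by linarith [pow_pos (by norm_num : (0 : ℝ) < 1 / 2) J]
  rw [← hs]
  have c1 : ∀ σ : ℝ, 0 < σ → σ ≤ 1 → ball (3 / 2 + σ * (I / 2)) (8 * (σ * (1 / 16))) ⊆ Ω :=
    fun σ σ0 σ1 z hz => hC (by
      obtain ⟨h1, h2⟩ := bl hz
      simp [abs_lt] at h1 h2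
      exact ⟨by linarith, by linarith, by linarith, by linarith⟩)
  have B1 := chain hv (θ := 1 / 8) (by norm_num) (by norm_num) (by norm_num) (by
      rw [norm_div, norm_I, RCLike.norm_two]; norm_num) c1
    (L := V) ((hv.2 _ _ (by norm_num) ((closedBall_subset_ball (ε₂ := 8 * (1 * (1 / 16)))
      (by norm_num)).trans (by simpa only [ofReal_one, one_mul] using c1 1 one_pos le_rfl))).trans (mul_le_mul_left hV _)) (8 * n) (3 * s) (by
      rw [pow_mul]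
      have h1 : (1 / 2 : ℝ) ^ n * n ≤ 1 := by
        rw [one_div, inv_pow, inv_mul_le_iff₀ (by positivity), mul_one]
        exact_mod_cast n.lt_two_pow_self.le
      have h2 : ((1 - 1 / 8 : ℝ) ^ 8) ^ n ≤ (1 / 2) ^ n := by gcongr; norm_num
      refine h2.trans (le_of_mul_le_mul_right (h1.trans ?_) (by linarith : (0 : ℝ) < n))
      nlinarith) (by linarith)
  have B2 := B1.shr (ρ' := 3 * h / 32) (K := 1600) (by positivity) (by linarith) (by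
    have : s ≤ 20 * h := le_of_mul_le_mul_left (by nlinarith) (by linarith : (0 : ℝ) < n)
    nlinarith) (by norm_num)
  rw [show (3 / 2 + ((3 * s : ℝ) : ℂ) * (I / 2)) = 0 + (3 / 2 : ℝ) * (1 + s * I) by push_cast; ring] at B2
  have B3 := chain hv (θ := h / 32) (by positivity) (by positivity) (by linarith) (by
      have h1 : ‖1 + s * I‖ ≤ 2 := (norm_add_le _ _).trans (by
        rw [norm_one, norm_mul, norm_I, norm_real, Real.norm_of_nonneg (by linarith)]; linarith)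
      rw [norm_mul, norm_real, Real.norm_of_nonneg (by norm_num)]
      nlinarith)
    (fun σ σ0 σ1 => (inS a0.le ab.le (by linarith) ?_ ?_ ?_).trans hS) B2 (32 * n * J) (2 * x / 3) (by
      rw [pow_mul]
      refine (pow_le_pow_left₀ (pow_nonneg (by linarith) _) (bern (by positivity) (by linarith) ?_) J).trans
        (by linarith)
      push_cast; nlinarith) (by linarith)
  rotate_left
  · simp [hs, hh]; linarith
  · simp [hs, hh]; linarith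
  · simp; nlinarith
  rw [show (0 + ((2 * x / 3 : ℝ) : ℂ) * ((3 / 2 : ℝ) * (1 + s * I))) =
    x * (1 + e * I) + x * (s - e : ℝ) * I by push_cast; ring,
    show 2 * x / 3 * (3 * h / 32) = x * h / 16 by ring] at B3
  have c3 : ∀ σ : ℝ, 0 < σ → σ ≤ 1 →
      ball (x * (1 + e * I) + σ * (x * (s - e : ℝ) * I)) (8 * (σ * (x * h / 16))) ⊆ Ω := fun σ σ0 σ1 => by
    have k1 := mul_pos x0 h0
    have k2 := mul_le_mul_of_nonneg_right σ1 k1.le
    refine (inS a0.le ab.le (by linarith) ?_ ?_ ?_).trans hS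
    · rcases he with he | he <;> simp [hs, he] <;> rw [hh] at k1 k2 ⊢ <;> nlinarith [mul_pos σ0 k1]
    · rcases he with he | he <;> simp [hs, he] <;> rw [hh] at k1 k2 ⊢ <;> nlinarith [mul_pos σ0 k1]
    · simp; nlinarith
  obtain ⟨j, j1, j2⟩ := exists_nat_pow_near_of_lt_one τ0 τ1 (y := 1 - 1 / 16) (by norm_num) (by norm_num)
  have B4 := chain hv (θ := 1 / 16) (by positivity) (by norm_num) (by norm_num) (by
    rw [norm_mul, norm_mul, norm_I, norm_real, norm_real, Real.norm_of_nonneg x0.le, Real.norm_eq_abs,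
      show |s - e| = h by
        rcases he with rfl | rfl
        · rw [abs_of_pos (by linarith)]; linarith
        · rw [abs_of_neg (by linarith)]; linarith]
    linarith) c3 B3 (j + 1) τ j1.le τ1
  have h1 := (gle (by positivity)).2 (fin hv hw hc (by positivity) ((closedBall_subset_ball
    (by linarith [mul_pos τ0 (mul_pos x0 h0)])).trans (c3 τ τ0 τ1)) B4)
  have h2 : 36 ^ (j + 1) * τ ^ 56 ≤ 36 := by
    calc 36 ^ (j + 1) * τ ^ 56 ≤ 36 ^ (j + 1) * ((1 - 1 / 16) ^ j) ^ 56 := by gcongr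
      _ = 36 * (36 * (1 - 1 / 16) ^ 56) ^ j := by rw [← pow_mul, mul_comm j, pow_mul, mul_pow]; ring
      _ ≤ 36 * 1 := by gcongr; exact pow_le_one₀ (by positivity) (by norm_num)
      _ = 36 := mul_one _
  refine (mul_le_mul_of_nonneg_right h1 (by positivity)).trans ?_
  rw [mul_right_comm]
  gcongr

lemma car (hΩ : IsOpen Ω) (hw : Sup Ω w) (hS : Sc a b ⊆ Ω) (ab : a < b) (b1 : b - a ≤ 1) (X0 : 0 < X)
    (X1 : X ≤ 1 / 2) {K : ℝ} (K0 : 0 ≤ K)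
    (hK : ∀ x e τ : ℝ, X / 2 ≤ x → x ≤ 1 → (e = a ∨ e = b) → 0 < τ → τ ≤ 1 →
      g c w (x * (1 + e * I) + τ * (x * ((a + b) / 2 - e : ℝ) * I)) * τ ^ 56 ≤ K)
    (hW : ∀ ζ : ℂ, ζ ∈ closure (Sc a b) → ζ ∉ Sc a b → ζ.re ≤ 2 * X →
      ∀ t < c, ∀ᶠ z in 𝓝[Ω] ζ, ENNReal.ofReal t ≤ w z) {A : ℝ} (hA : A = 12 * 2 ^ 56) (z : ℂ)
    (hz : z ∈ Sc a b) (hX : z.re = X) : g c w z ≤ 2 * (A ^ 56 * K) / (X / 2) ^ 56 := by
  obtain ⟨δ, hδ⟩ : ∃ δ : ℂ → ℝ, ∀ z, δ z = X / 2 - |z.re - X| := ⟨_, fun _ => rfl⟩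
  obtain ⟨T, hT⟩ : ∃ T, T = (fun z => g c w z * δ z ^ 56) '' {z | z ∈ Sc a b ∧ 0 < δ z} := ⟨_, rfl⟩
  have A0 : 0 < A := by rw [hA]; positivity
  have hb : BddAbove T := ⟨|c|, by
    rw [hT]
    rintro _ ⟨z, hz, rfl⟩
    refine (mul_le_of_le_one_right (g0 _ _ _) (pow_le_one₀ hz.2.le ?_)).trans ((gle (abs_nonneg c)).2
      (le_add_left (ENNReal.ofReal_le_ofReal (le_abs_self c))))
    linarith [hδ z, abs_nonneg (z.re - X)]⟩
  have hL : ∀ z ∈ Sc a b, 0 < δ z → g c w z * δ z ^ 56 ≤ sSup T := fun z h1 h2 =>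
    le_csSup hb (hT ▸ ⟨z, ⟨h1, h2⟩, rfl⟩)
  have L0 : 0 ≤ sSup T := Real.sSup_nonneg (by
    rw [hT]
    rintro _ ⟨z, hz, rfl⟩
    exact mul_nonneg (g0 _ _ _) (pow_nonneg hz.2.le _))
  have h1 : sSup T ≤ A ^ 56 * K + sSup T / 2 := Real.sSup_le (by
    generalize sSup T = L at *
    rw [hT]
    rintro _ ⟨z, ⟨hz, d0⟩, rfl⟩
    have h1 := abs_lt.1 (show |z.re - X| < X / 2 by linarith [hδ z])
    have x0 : 0 < z.re := by linarith
    have k0 : 0 < z.re * ((b - a) / 2) := mul_pos x0 (by linarith)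
    obtain ⟨e, τ, ω, he, τ0, τ1, h2, h3, ω1, hω⟩ : ∃ (e τ : ℝ) (ω : ℂ), (e = a ∨ e = b) ∧ 0 < τ ∧ τ ≤ 1 ∧
        z = z.re * (1 + e * I) + τ * (z.re * ((a + b) / 2 - e : ℝ) * I) ∧
        |(a + b) / 2 - e| = (b - a) / 2 ∧ ‖ω‖ = 1 ∧ ∀ y ∈ closure (Sc a b),
          0 ≤ (ω * (y - z.re * (1 + e * I))).im := by
      have n0 : ∀ e : ℝ, 0 < ‖1 - e * I‖ := fun e => norm_pos_iff.2 fun h => by
        simpa using congrArg re h
      have n1 : ∀ e : ℝ, ‖((‖1 - e * I‖⁻¹ : ℝ) : ℂ) * (1 - e * I)‖ = 1 := fun e => by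
        rw [norm_mul, norm_real, norm_inv, norm_norm, inv_mul_cancel₀ (n0 e).ne']
      have n2 : ∀ (e : ℝ) (y : ℂ), (((‖1 - e * I‖⁻¹ : ℝ) : ℂ) * (1 - e * I) *
          (y - z.re * (1 + e * I))).im = ‖1 - e * I‖⁻¹ * (y.im - e * y.re) := fun e y => by
        rw [mul_assoc, im_ofReal_mul]; simp; left; ring
      rcases le_total z.im ((a + b) / 2 * z.re) with h | h
      · refine ⟨a, (z.im - a * z.re) / (z.re * ((b - a) / 2)), _, Or.inl rfl,
          div_pos (sub_pos.2 hz.1) k0, (div_le_one k0).2 (by linarith), ?_,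
          by rw [abs_of_pos (by linarith)]; ring, n1 a, fun y hy => ?_⟩
        · rw [show (a + b) / 2 - a = (b - a) / 2 by ring, ← mul_assoc, ← ofReal_mul, ← ofReal_mul,
            div_mul_cancel₀ _ k0.ne']
          apply Complex.ext <;> simp [mul_comm]
        · rw [n2]; exact mul_nonneg (by positivity) (sub_nonneg.2 (Sc_cl hy).1)
      · refine ⟨b, (b * z.re - z.im) / (z.re * ((b - a) / 2)), -_, Or.inr rfl,
          div_pos (sub_pos.2 hz.2.1) k0, (div_le_one k0).2 (by linarith), ?_,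
          by rw [abs_of_neg (by linarith)]; ring, (norm_neg _).trans (n1 b), fun y hy => ?_⟩
        · rw [show (a + b) / 2 - b = -((b - a) / 2) by ring, ← mul_assoc, ← ofReal_mul, ← ofReal_mul,
            mul_neg, mul_neg, div_mul_cancel₀ _ k0.ne']
          apply Complex.ext <;> simp [mul_comm]
        · rw [neg_mul, neg_im, n2, ← mul_neg, neg_sub]
          exact mul_nonneg (by positivity) (sub_nonneg.2 (Sc_cl hy).2)
    have h4 := hK z.re e τ (by linarith) (by linarith) he τ0 τ1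
    rw [← h2] at h4
    obtain ⟨q, hq⟩ : ∃ q : ℂ, q = z.re * (1 + e * I) := ⟨_, rfl⟩
    have q1 : q.re = z.re := by simp [hq]
    rw [← hq] at h2 hω
    have h5 : ‖z - q‖ = τ * (z.re * ((b - a) / 2)) := by
      rw [sub_eq_iff_eq_add'.2 h2, norm_mul, norm_mul, norm_mul, norm_I, norm_real, norm_real, norm_real,
        Real.norm_of_nonneg τ0.le, Real.norm_of_nonneg x0.le, Real.norm_eq_abs, h3, mul_one]
    rcases le_or_gt (δ z) (A * ‖z - q‖) with h6 | h6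
    · have h7 : δ z ≤ A * τ := h6.trans (mul_le_mul_of_nonneg_left
        (h5 ▸ mul_le_of_le_one_right τ0.le (by nlinarith)) A0.le)
      calc g c w z * δ z ^ 56 ≤ g c w z * (A * τ) ^ 56 := by have := g0 c w z; gcongr
        _ = A ^ 56 * (g c w z * τ ^ 56) := by ring
        _ ≤ A ^ 56 * K := by gcongr
        _ ≤ _ := le_add_of_nonneg_right (by positivity)
    obtain ⟨d, hd⟩ : ∃ d, d = δ z := ⟨_, rfl⟩
    rw [← hd] at d0 h6
    have e1 : ∀ y : ℂ, ((d / 2)⁻¹ : ℝ) * ω * y + -(((d / 2)⁻¹ : ℝ) * ω * q) =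
        ((d / 2)⁻¹ : ℝ) * (ω * (y - q)) := fun y => by ring
    have e2 : ∀ y : ℂ, ‖((d / 2)⁻¹ : ℝ) * (ω * (y - q))‖ = (d / 2)⁻¹ * ‖y - q‖ := fun y => by
      rw [norm_mul, norm_mul, ω1, one_mul, norm_real, Real.norm_of_nonneg (by positivity)]
    have e3 := fun y (h1 : y ∈ closure (Sc a b)) (h2 : ‖y - q‖ ≤ d / 2) =>
      quad (ζ := ((d / 2)⁻¹ : ℝ) * (ω * (y - q))) (by
        rw [im_ofReal_mul]; exact mul_nonneg (by positivity) (hω y h1))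
        (by rw [e2, inv_mul_le_iff₀ (by positivity)]; linarith)
    have L1 : 0 ≤ L / (d / 2) ^ 56 := by positivity
    have h7 : ‖z - q‖ < d / 2 := by
      have : (2 : ℝ) ≤ A := by rw [hA]; norm_num
      nlinarith [norm_nonneg (z - q)]
    have h8 := cmp hΩ ((Sc_open a b).inter (isOpen_ball (x := q) (ε := d / 2)))
      (isBounded_ball.subset inter_subset_right) (inter_subset_left.trans hS) hw (c := c)
      (((hm_re (((d / 2)⁻¹ : ℝ) * ω) (-(((d / 2)⁻¹ : ℝ) * ω * q)) 2).lin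
        (hm_im (((d / 2)⁻¹ : ℝ) * ω) (-(((d / 2)⁻¹ : ℝ) * ω * q)) 1) 1 2).lin (hm_const 0) (L / (d / 2) ^ 56) 0) (fun ζ hζ => by
      have k1 := closure_mono inter_subset_left hζ.1
      have k2 := mem_closedBall_iff_norm.1 (closure_ball_subset_closedBall
        (closure_mono inter_subset_right hζ.1))
      have k3 := abs_le.1 ((abs_re_le_norm (ζ - q)).trans k2)
      rw [sub_re, q1] at k3
      simp only [e1, mul_zero, add_zero]
      by_cases k4 : ζ ∈ Sc a b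
      · have k5 : ‖ζ - q‖ = d / 2 := k2.antisymm (not_lt.1 fun h => hζ.2 (by
          rw [((Sc_open a b).inter isOpen_ball).interior_eq]; exact ⟨k4, mem_ball_iff_norm.2 h⟩))
        have k6 : d / 2 ≤ δ ζ := by
          have := abs_sub_le ζ.re z.re X
          linarith [hδ z, hδ ζ, abs_le.2 k3]
        refine Or.inr ⟨hS k4, le_trans ?_ (le_mul_of_one_le_right L1 ((e3 ζ k1 k2).2.2
          (by rw [e2, k5, inv_mul_cancel₀ (by positivity)])))⟩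
        rw [le_div_iff₀ (by positivity)]
        refine le_trans ?_ (hL ζ k4 (by linarith))
        have := g0 c w ζ
        gcongr
      · exact Or.inl ⟨mul_nonneg L1 (e3 ζ k1 k2).1, hW ζ k1 k4
          (by linarith [hδ z, abs_nonneg (z.re - X)])⟩) z ⟨hz, mem_ball_iff_norm.2 h7⟩ (by
      simp only [e1, mul_zero, add_zero]
      exact mul_nonneg L1 (e3 z (subset_closure hz) h7.le).1)
    simp only [e1, mul_zero, add_zero] at h8
    have h9 := h8.trans (mul_le_mul_of_nonneg_left (e3 z (subset_closure hz) h7.le).2.1 L1)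
    rw [e2] at h9
    beta_reduce
    rw [← hd]
    refine le_add_of_nonneg_of_le (by positivity) ((mul_le_mul_of_nonneg_right h9 (by positivity)).trans ?_)
    rw [show L / (d / 2) ^ 56 * (3 * ((d / 2)⁻¹ * ‖z - q‖)) * d ^ 56 =
      L / 2 * (12 * 2 ^ 56 * ‖z - q‖ / d) by field_simp; ring, ← hA]
    exact mul_le_of_le_one_right (by positivity) ((div_le_one d0).2 h6.le)) (by positivity)
  have h2 := hL z hz (by rw [hδ, hX]; simpa using X0)
  rw [hδ, hX, sub_self, abs_zero, sub_zero] at h2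
  rw [le_div_iff₀ (by positivity)]
  linarith

theorem key (X0 : 0 < X) (X1 : X ≤ 1 / 2) : ∃ r K : ℝ, 0 < r ∧ r ≤ 1 ∧ 0 ≤ K ∧
    ∀ (Ω : Set ℂ) (v w : ℂ → ℝ≥0∞) (a b c V : ℝ) (m : ℕ), IsOpen Ω → Sup Ω v → Sup Ω w →
      (∀ z ∈ Ω, ENNReal.ofReal c ≤ v z + w z) → 0 ≤ V → v (3 / 2 + I / 2) ≤ ENNReal.ofReal V →
      Sc a b ⊆ Ω → Ch ⊆ Ω → 1 ≤ m → 1 ≤ (64 * m : ℕ) * a → 2 ≤ (64 * m : ℕ) * (b - a) →
      (64 * m : ℕ) * b ≤ 20 → (∀ ζ : ℂ, ζ ∈ closure (Sc a b) → ζ ∉ Sc a b → ζ.re ≤ 2 * X →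
        ∀ t < c, ∀ᶠ z in 𝓝[Ω] ζ, ENNReal.ofReal t ≤ w z) →
      ∀ z ∈ Sc a b, z.re < r → ENNReal.ofReal c ≤ w z + ENNReal.ofReal (K * V) := by
  obtain ⟨J, hJ⟩ := exists_pow_lt_of_lt_one (show 0 < X / 3 by positivity) (by norm_num : (1 / 2 : ℝ) < 1)
  obtain ⟨A, hA⟩ : ∃ A : ℝ, A = 12 * 2 ^ 56 := ⟨_, rfl⟩
  have A0 : 0 < A := by rw [hA]; positivity
  obtain ⟨D, hD⟩ : ∃ D : ℝ, D = 36 ^ (32 * 64 * J + 8 * 64) := ⟨_, rfl⟩
  have D1 : 1 ≤ D := hD ▸ one_le_pow₀ (by norm_num)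
  have D0 : 0 < D := by linarith
  have r1 : X / D ≤ X := div_le_self X0.le D1
  refine ⟨X / D, 6 * (A ^ 56 * (36 * 1600)) / (X / 2) ^ 56, by positivity, by linarith, by positivity,
    fun Ω v w a b c V m hΩ hv hw hc V0 hV hS hC m1 p1 p2 p3 hW z hz hr => ?_⟩
  have N : (64 : ℝ) ≤ (64 * m : ℕ) := by exact_mod_cast Nat.le_mul_of_pos_right 64 m1
  have a0 : 0 < a := by nlinarith
  have ab : a < b := by nlinarith
  have b1 : b ≤ 1 / 3 := by nlinarith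
  have h1 := car hΩ hw hS ab (by linarith) X0 X1 (by positivity) (fun x e τ =>
    gr hv hw hc V0 hV hS hC (Nat.le_mul_of_pos_right 64 m1) p1 p2 p3 hJ.le) hW hA
  rw [show (36 : ℝ) * (36 ^ (32 * (64 * m) * J) * (1600 * (36 ^ (8 * (64 * m)) * V))) =
    36 * 1600 * V * D ^ m by rw [hD, ← pow_mul, add_mul, pow_add]; ring_nf] at h1
  obtain ⟨L, hL⟩ : ∃ L, L = 2 * (A ^ 56 * (36 * 1600 * V * D ^ m)) / (X / 2) ^ 56 := ⟨_, rfl⟩
  have L0 : 0 ≤ L := hL ▸ div_nonneg (mul_nonneg zero_le_two (mul_nonneg (pow_nonneg A0.le _)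
    (mul_nonneg (mul_nonneg (by norm_num) V0) (pow_nonneg D0.le _)))) (pow_nonneg (by linarith) _)
  rw [← hL] at h1
  have h2 := fun y (h : y ∈ closure (Sc a b)) => sec a0.le ab (m := m) (by push_cast at p3; linarith)
    (by omega) X0 (Sc_cl h).1 (Sc_cl h).2
  have h3 : ∀ y ∈ closure (Sc a b), 0 ≤ y.re := fun y h => by nlinarith [Sc_cl h]
  have h4 : ∀ y ∈ closure (Sc a b), 0 ≤ 2 * L * ((((X⁻¹ : ℝ) : ℂ) * y + 0) ^ m).re + 0 * 0 := fun y h => by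
    have := h3 y h
    have := le_trans (by positivity) (h2 y h).1
    positivity
  have ho : IsOpen (Sc a b ∩ {y | y.re < X}) :=
    (Sc_open a b).inter (isOpen_lt continuous_re continuous_const)
  have h5 := cmp hΩ ho ((isBounded_closedBall (x := 0) (r := 2)).subset fun y hy => by
      have k1 := h3 y (subset_closure hy.1)
      have k2 : y.re < X := hy.2
      rw [mem_closedBall_zero_iff]
      refine (norm_le_abs_re_add_abs_im y).trans ?_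
      rw [abs_of_nonneg k1, abs_of_nonneg (by nlinarith [hy.1.1])]
      nlinarith [hy.1.2.1])
    (inter_subset_left.trans hS) hw (c := c) ((hm_re (X⁻¹ : ℝ) 0 m).lin (hm_const 0) (2 * L) 0) (fun ζ hζ => by
      have k1 := closure_mono inter_subset_left hζ.1
      have k2 : ζ.re ≤ X := closure_minimal (t := {y : ℂ | y.re ≤ X}) (fun y hy => le_of_lt
        (show y.re < X from hy.2))
        (isClosed_le continuous_re continuous_const) hζ.1
      by_cases k4 : ζ ∈ Sc a b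
      · have k5 : ζ.re = X := k2.antisymm (not_lt.1 fun h => hζ.2 (by rw [ho.interior_eq]; exact ⟨k4, h⟩))
        have k6 := (h2 ζ k1).1
        rw [k5, div_self X0.ne', one_pow] at k6
        exact Or.inr ⟨hS k4, (h1 ζ k4 k5).trans (by nlinarith)⟩
      · exact Or.inl ⟨h4 ζ k1, hW ζ k1 k4 (by linarith)⟩) z ⟨hz, hr.trans_le r1⟩ (h4 z (subset_closure hz))
  refine (gle (by positivity)).1 (h5.trans ?_)
  have h6 : D ^ m * (z.re / X) ^ m ≤ 1 := by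
    have := h3 z (subset_closure hz)
    rw [← mul_pow]
    refine pow_le_one₀ (by positivity) ?_
    rw [lt_div_iff₀ (by linarith)] at hr
    rw [← mul_div_assoc, div_le_one X0]; linarith
  calc _ ≤ 2 * L * (3 / 2 * (z.re / X) ^ m) + 0 * 0 := by gcongr; exact (h2 z (subset_closure hz)).2
    _ = 6 * (A ^ 56 * (36 * 1600)) / (X / 2) ^ 56 * V * (D ^ m * (z.re / X) ^ m) := by rw [hL]; ring
    _ ≤ _ := mul_le_of_le_one_right (by positivity) h6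

end Pool.Agent.H.MP_1ca924_an
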