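import Pool.Agent.H.MP_1ca924_an.B

namespace Pool.Agent.H.MP_1ca924_an

open Set Metric MeasureTheory Filter Topology Complex
open scoped ENNReal

def Up (Ω : Set ℂ) (f : ℂ → EReal) (v : ℂ → ℝ≥0∞) (m : ℝ) : Prop :=
  Sup Ω v ∧ ∀ ζ ∈ frontier Ω, f ζ ≤ liminf (fun z => (v z : EReal) - m) (𝓝[Ω] ζ)

noncomputable def U (Ω : Set ℂ) (f : ℂ → EReal) (x : ℂ) : EReal :=
  ⨅ (v : ℂ → ℝ≥0∞) (m : ℝ) (_ : Up Ω f v m), (v x : EReal) - m

def Sol (Ω : Set ℂ) (f : ℂ → EReal) (H : ℂ → ℝ) : Prop :=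
  InnerProductSpace.HarmonicOnNhd H Ω ∧ ∀ x ∈ Ω, U Ω f x = H x ∧ -U Ω (-f) x = H x

def BReg (Ω : Set ℂ) (y : ℂ) : Prop :=
  ∀ (f : ℂ → EReal) (H : ℂ → ℝ), Sol Ω f H →
    (∃ R > 0, ∃ M : ℝ, ∀ ζ ∈ ball y R ∩ frontier Ω, ((-M : ℝ) : EReal) ≤ f ζ ∧ f ζ ≤ M) →
      ∃ r > 0, ∃ M : ℝ, ∀ x ∈ ball y r ∩ Ω, |H x| ≤ M

lemma er {h m : ℝ} {v : ℝ≥0∞} : (h : EReal) ≤ (v : EReal) - m ↔ ENNReal.ofReal (h + m) ≤ v := by
  rcases eq_or_ne v ⊤ with rfl | hv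
  · simp
  lift v to NNReal using hv
  rw [EReal.coe_nnreal_eq_coe_real, ← EReal.coe_sub, EReal.coe_le_coe_iff, ENNReal.ofReal_le_coe,
    le_sub_iff_add_le]

lemma lim_iff {l : Filter ℂ} {v : ℂ → ℝ≥0∞} {m s : ℝ} :
    (s : EReal) ≤ liminf (fun z => (v z : EReal) - m) l ↔
      ∀ t < s + m, ∀ᶠ z in l, ENNReal.ofReal t ≤ v z := by
  rw [le_liminf_iff']
  refine ⟨fun h t ht => (h (t - m : ℝ) (EReal.coe_lt_coe_iff.2 (by linarith))).mono fun z hz => by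
    simpa using er.1 hz, fun h y hy => ?_⟩
  induction y with
  | bot => simp
  | top => simp at hy
  | coe y => exact (h (y + m) (by linarith [EReal.coe_lt_coe_iff.1 hy])).mono fun z hz => er.2 hz

lemma U_le {Ω : Set ℂ} {f : ℂ → EReal} {v : ℂ → ℝ≥0∞} {m : ℝ} (h : Up Ω f v m) (x : ℂ) :
    U Ω f x ≤ (v x : EReal) - m := iInf_le_of_le v (iInf₂_le m h)

lemma im_pow (φ : ℝ) (h : 0 < Real.cos φ) (n : ℕ) :
    ((1 + Real.tan φ * I) ^ n).im = (Real.cos φ)⁻¹ ^ n * Real.sin (n * φ) := by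
  have h1 : 1 + Real.tan φ * I = ((Real.cos φ)⁻¹ : ℝ) * exp (φ * I) := by
    rw [exp_mul_I, ← ofReal_cos, ← ofReal_sin, Real.tan_eq_sin_div_cos]
    have : ((Real.cos φ : ℝ) : ℂ) ≠ 0 := ofReal_ne_zero.2 h.ne'
    rw [ofReal_div, ofReal_inv]
    field_simp
  rw [h1, mul_pow, ← ofReal_pow, im_ofReal_mul, ← exp_nat_mul, ← mul_assoc, ← ofReal_natCast,
    ← ofReal_mul, exp_ofReal_mul_I_im]

lemma tan_le {φ : ℝ} (h0 : 0 ≤ φ) (h1 : φ ≤ 1 / 4) : φ ≤ Real.tan φ ∧ Real.tan φ ≤ 21 / 20 * φ := by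
  have h2 : 20 / 21 ≤ Real.cos φ := le_trans (by nlinarith) (Real.one_sub_sq_div_two_le_cos (x := φ))
  refine ⟨Real.le_tan h0 (by linarith [Real.pi_gt_three]), ?_⟩
  rw [Real.tan_eq_sin_div_cos, div_le_iff₀ (by linarith)]
  nlinarith [Real.sin_le h0]

def Fam (a b η : ℕ → ℝ) (m : ℕ → ℕ) : Prop := ∀ k, 1 ≤ m k ∧ 1 ≤ (64 * m k : ℕ) * a k ∧
  2 ≤ (64 * m k : ℕ) * (b k - a k) ∧ (64 * m k : ℕ) * b k ≤ 20 ∧ (∀ l, k < l → b l ≤ a k) ∧
  a k < η k ∧ η k < b k ∧ 0 < ((1 + η k * I) ^ (64 * m k)).im ∧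
  (∀ e : ℝ, a k ≤ e → e ≤ b k → 0 ≤ ((1 + e * I) ^ (64 * m k)).im) ∧
  ((1 + a k * I) ^ (64 * m k)).im = 0 ∧ ((1 + b k * I) ^ (64 * m k)).im = 0

lemma fam : ∃ a b η m, Fam a b η m := by
  obtain ⟨u, hu⟩ : ∃ u : ℕ → ℝ, ∀ k, u k = Real.pi / (64 * 2 ^ k : ℕ) := ⟨_, fun _ => rfl⟩
  have p3 := Real.pi_gt_three
  have p4 := Real.pi_lt_d2
  have h1 : ∀ k, (64 * 2 ^ k : ℕ) * u k = Real.pi := fun k => by rw [hu]; field_simp
  have h2 : ∀ k, 0 < u k := fun k => by rw [hu]; positivity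
  have h3 : ∀ k, (64 : ℝ) ≤ (64 * 2 ^ k : ℕ) := fun k => by
    exact_mod_cast Nat.le_mul_of_pos_right 64 (by positivity)
  have h4 : ∀ k, u k ≤ 1 / 20 := fun k => by nlinarith [h1 k, h2 k, h3 k]
  refine ⟨fun k => Real.tan (2 * u k), fun k => Real.tan (3 * u k), fun k => Real.tan (5 / 2 * u k),
    fun k => 2 ^ k, fun k => ?_⟩
  have u0 := h2 k
  have u1 := h4 k
  have u2 := h1 k
  have u3 := h3 k
  have a1 := tan_le (φ := 2 * u k) (by linarith) (by linarith)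
  have b1 := tan_le (φ := 3 * u k) (by linarith) (by linarith)
  have c1 := tan_le (φ := 5 / 2 * u k) (by linarith) (by linarith)
  have cp : ∀ φ, 0 ≤ φ → φ ≤ 3 * u k → 0 < Real.cos φ := fun φ k0 k1 =>
    Real.cos_pos_of_mem_Ioo ⟨by linarith, by linarith⟩
  have sn : ∀ s : ℝ, Real.sin ((64 * 2 ^ k : ℕ) * (s * u k)) = Real.sin ((s - 2) * Real.pi) := fun s => by
    rw [mul_left_comm, u2, ← Real.sin_sub_two_pi]; ring_nf
  refine ⟨Nat.one_le_two_pow, by nlinarith, by nlinarith, by nlinarith, fun l hl => ?_, by linarith,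
    by linarith, ?_, fun e e1 e2 => ?_, ?_, ?_⟩
  · have k1 : 2 * u l ≤ u k := by
      rw [hu, hu, ← mul_div_assoc, div_le_div_iff₀ (by positivity) (by positivity)]
      have : ((64 * 2 ^ k : ℕ) : ℝ) * 2 ≤ (64 * 2 ^ l : ℕ) := by
        exact_mod_cast (show 64 * 2 ^ k * 2 ≤ 64 * 2 ^ l by
          rw [mul_assoc, ← pow_succ]; exact Nat.mul_le_mul_left _ (Nat.pow_le_pow_right two_pos hl))
      nlinarith
    linarith [(tan_le (φ := 3 * u l) (by linarith [h2 l]) (by linarith [h4 l])).2, h2 l]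
  · have := cp (5 / 2 * u k) (by linarith) (by linarith)
    rw [im_pow _ this, sn]
    exact mul_pos (by positivity) (Real.sin_pos_of_pos_of_lt_pi (by linarith) (by linarith))
  · have k1 := Real.arctan_mono e1
    have k2 := Real.arctan_mono e2
    rw [Real.arctan_tan (by linarith) (by linarith)] at k1 k2
    have := Real.cos_arctan_pos e
    rw [← Real.tan_arctan e, im_pow _ this, ← Real.sin_sub_two_pi]
    exact mul_nonneg (by positivity) (Real.sin_nonneg_of_nonneg_of_le_pi (by nlinarith) (by nlinarith))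
  · rw [im_pow _ (cp _ (by linarith) (by linarith)), sn]; simp
  · rw [im_pow _ (cp _ (by linarith) (by linarith)), sn]; norm_num

variable {a b η : ℕ → ℝ} {m : ℕ → ℕ}

lemma Fam.pos (h : Fam a b η m) (k : ℕ) : 0 < a k ∧ a k < b k ∧ b k ≤ 1 := by
  obtain ⟨h1, h2, h3, h4, -⟩ := h k
  have N : (64 : ℝ) ≤ (64 * m k : ℕ) := by exact_mod_cast Nat.le_mul_of_pos_right 64 h1
  refine ⟨?_, ?_, ?_⟩ <;> nlinarith

lemma Fam.uniq (h : Fam a b η m) {k l : ℕ} {z : ℂ} (h1 : z ∈ closure (Sc (a k) (b k)))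
    (h2 : z ∈ Sc (a l) (b l)) : k = l := by
  have h3 := Sc_cl h1
  have h4 : 0 ≤ z.re := by nlinarith [(h.pos k).2.1]
  rcases lt_trichotomy k l with h5 | h5 | h5
  · nlinarith [(h k).2.2.2.2.1 l h5, h2.2.1]
  · exact h5
  · nlinarith [(h l).2.2.2.2.1 k h5, h2.1]

lemma Fam.sg (h : Fam a b η m) {k : ℕ} {z : ℂ} (h1 : z ∈ closure (Sc (a k) (b k))) :
    0 ≤ (z ^ (64 * m k)).im ∧ (z ∉ Sc (a k) (b k) → z.re ≤ 1 → (z ^ (64 * m k)).im = 0) := by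
  have h3 := Sc_cl h1
  have h4 : 0 ≤ z.re := by nlinarith [(h.pos k).2.1]
  obtain ⟨m1, -, -, -, -, -, -, -, k1, k2, k3⟩ := h k
  rcases h4.eq_or_lt with h5 | h5
  · have : z = 0 := Complex.ext h5.symm (by rw [← h5] at h3; simp only [zero_im]; linarith [h3.1, h3.2])
    simp [this, show m k ≠ 0 by omega]
  have h6 : (z ^ (64 * m k)).im = z.re ^ (64 * m k) *
      ((1 + ((z.im / z.re : ℝ) : ℂ) * I) ^ (64 * m k)).im := by
    conv_lhs => rw [pol h5.ne']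
    rw [mul_pow, ← ofReal_pow, im_ofReal_mul]
  rw [h6]
  refine ⟨mul_nonneg (by positivity) (k1 _ ((le_div_iff₀ h5).2 h3.1) ((div_le_iff₀ h5).2 h3.2)),
    fun h7 h8 => ?_⟩
  rcases h3.1.eq_or_lt with h9 | h9
  · rw [← h9, mul_div_cancel_right₀ _ h5.ne', k2, mul_zero]
  · rw [h3.2.antisymm (not_lt.1 fun h => h7 ⟨h9, h, by linarith⟩), mul_div_cancel_right₀ _ h5.ne', k3,
      mul_zero]

lemma Fam.pt (h : Fam a b η m) (k : ℕ) {t : ℝ} (t0 : 0 < t) (t1 : t ≤ 1) :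
    t * (1 + η k * I) ∈ Sc (a k) (b k) ∧ ‖t * (1 + η k * I)‖ ≤ 2 * t ∧
      0 < ((t * (1 + η k * I)) ^ (64 * m k)).im := by
  obtain ⟨k0, -, k1⟩ := h.pos k
  obtain ⟨-, -, -, -, -, k2, k3, k4, -⟩ := h k
  refine ⟨⟨by simp; nlinarith, by simp; nlinarith, by simp; linarith⟩, ?_, ?_⟩
  · refine (norm_le_abs_re_add_abs_im _).trans ?_
    simp only [mul_re, mul_im, add_re, add_im, ofReal_re, ofReal_im, I_re, I_im, one_re, one_im]
    rw [abs_of_pos (by linarith), abs_of_pos (by nlinarith)]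
    nlinarith
  · rw [mul_pow, ← ofReal_pow, im_ofReal_mul]
    positivity

def Om (a b : ℕ → ℝ) : Set ℂ := (⋃ k, Sc (a k) (b k)) ∪ Ch

lemma Om_open : IsOpen (Om a b) := (isOpen_iUnion fun _ => Sc_open _ _).union
  ((isOpen_lt continuous_const continuous_re).inter ((isOpen_lt continuous_re continuous_const).inter
    ((isOpen_lt continuous_const continuous_im).inter (isOpen_lt continuous_im continuous_const))))

lemma Om_sub (k : ℕ) : Sc (a k) (b k) ⊆ Om a b :=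
  (subset_iUnion (fun k => Sc (a k) (b k)) k).trans subset_union_left

lemma Om_mem {z : ℂ} (h : z ∈ Om a b) (h1 : z.re ≤ 1) : ∃ k, z ∈ Sc (a k) (b k) :=
  h.elim mem_iUnion.1 fun h => absurd h.1 (not_lt.2 h1)

lemma Fam.nrm (h : Fam a b η m) {k : ℕ} {z : ℂ} (h1 : z ∈ closure (Sc (a k) (b k))) :
    ‖z‖ ≤ 2 * z.re := by
  have h3 := Sc_cl h1
  obtain ⟨k0, k2, k1⟩ := h.pos k
  have h4 : 0 ≤ z.re := by nlinarith
  refine (norm_le_abs_re_add_abs_im _).trans ?_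
  rw [abs_of_nonneg h4, abs_of_nonneg (by nlinarith)]
  nlinarith

lemma Fam.half (h : Fam a b η m) {f : ℂ → EReal} {H : ℂ → ℝ} (h1 : ∀ x ∈ Om a b, U (Om a b) f x = H x)
    (h2 : ∀ x ∈ Om a b, U (Om a b) (-f) x = (-H x : ℝ)) {R M : ℝ} (R0 : 0 < R)
    (h3 : ∀ ζ ∈ ball 0 R ∩ frontier (Om a b), f ζ ≤ M) :
    ∃ r > 0, ∃ M : ℝ, ∀ x ∈ ball 0 r ∩ Om a b, H x ≤ M := by
  have x0 : 3 / 2 + I / 2 ∈ Om a b := Or.inr (by simp [Ch]; norm_num)
  have h4 : U (Om a b) f (3 / 2 + I / 2) < (H (3 / 2 + I / 2) + 1 : ℝ) := by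
    rw [h1 _ x0, EReal.coe_lt_coe_iff]; linarith
  simp only [U, iInf_lt_iff] at h4
  obtain ⟨v, μ, hv, h4⟩ := h4
  obtain ⟨V, hV⟩ : ∃ V, V = |H (3 / 2 + I / 2) + 1 + μ| := ⟨_, rfl⟩
  have h5 : v (3 / 2 + I / 2) ≤ ENNReal.ofReal V := (not_le.1 fun h => absurd (er.2 h) (not_le.2 h4)).le.trans
    (ENNReal.ofReal_le_ofReal (hV ▸ le_abs_self _))
  obtain ⟨r, K, r0, r1, K0, hk⟩ := key (X := min (R / 8) (1 / 2)) (by positivity) (min_le_right _ _)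
  refine ⟨r, r0, max M (-μ) + K * V, fun x hx => ?_⟩
  have h6 := (re_le_norm x).trans_lt (mem_ball_zero_iff.1 hx.1)
  obtain ⟨k, h7⟩ := Om_mem hx.2 (by linarith)
  have h8 : ((-(max M (-μ) + K * V) : ℝ) : EReal) ≤ U (Om a b) (-f) x := by
    refine le_iInf fun w => le_iInf₂ fun μ' hw => er.2 ?_
    have V0 : 0 ≤ V := hV ▸ abs_nonneg _
    have h9 := hk (Om a b) v w (a k) (b k) (μ' - max M (-μ)) V (m k) Om_open hv.1 hw.1 (fun z hz => by
        have k1 := U_le hv z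
        have k2 := U_le hw z
        rw [h1 z hz] at k1
        rw [h2 z hz] at k2
        exact le_trans ((ENNReal.ofReal_le_ofReal (by linarith [le_max_right M (-μ)])).trans
          ENNReal.ofReal_add_le) (add_le_add (er.1 k1) (er.1 k2)))
      V0 h5 (Om_sub k) subset_union_right (h k).1 (h k).2.1 (h k).2.2.1 (h k).2.2.2.1
      (fun ζ k1 k2 k3 t ht => by
        have k4 := min_le_left (R / 8) (1 / 2)
        have k5 := min_le_right (R / 8) (1 / 2)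
        have k6 : ζ ∈ frontier (Om a b) := by
          rw [Om_open.frontier_eq]
          refine ⟨closure_mono (Om_sub k) k1, fun k7 => ?_⟩
          obtain ⟨l, k8⟩ := Om_mem k7 (by linarith)
          exact k2 (h.uniq k1 k8 ▸ k8)
        have k7 := h3 ζ ⟨mem_ball_zero_iff.2 (by linarith [h.nrm k1]), k6⟩
        exact lim_iff.1 (le_trans (show ((-M : ℝ) : EReal) ≤ (-f) ζ from EReal.neg_le_neg_iff.2 k7)
          (hw.2 ζ k6)) t (by linarith [le_max_left M (-μ)])) x h7 h6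
    rw [← tsub_le_iff_right, ← ENNReal.ofReal_sub _ (by positivity)] at h9
    exact (ENNReal.ofReal_le_ofReal (by linarith)).trans h9
  rw [h2 x hx.2, EReal.coe_le_coe_iff] at h8
  linarith

lemma Fam.reg (h : Fam a b η m) : BReg (Om a b) 0 := by
  rintro f H ⟨-, h1⟩ ⟨R, R0, M, hM⟩
  have h2 : ∀ x ∈ Om a b, U (Om a b) (-f) x = (-H x : ℝ) := fun x hx => by
    rw [EReal.coe_neg, ← (h1 x hx).2, neg_neg]
  obtain ⟨r, r0, L, hL⟩ := h.half (fun x hx => (h1 x hx).1) h2 R0 fun ζ hζ => (hM ζ hζ).2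
  obtain ⟨r', r0', L', hL'⟩ := h.half (H := fun x => -H x) (M := M) h2 (fun x hx => by
    rw [neg_neg, neg_neg, (h1 x hx).1]) R0 fun ζ hζ => EReal.neg_le.1 (hM ζ hζ).1
  refine ⟨min r r', lt_min r0 r0', max L L', fun x hx => abs_le.2 ⟨?_, ?_⟩⟩
  · linarith [hL' x ⟨ball_subset_ball (min_le_right _ _) hx.1, hx.2⟩, le_max_right L L']
  · linarith [hL x ⟨ball_subset_ball (min_le_left _ _) hx.1, hx.2⟩, le_max_left L L']

end Pool.Agent.H.MP_1ca924_an
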