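import Pool.Agent.H.MP_1ca924_an.C

namespace Pool.Agent.H.MP_1ca924_an

open Set Metric MeasureTheory Filter Topology Complex
open scoped ENNReal

variable {a b η : ℕ → ℝ} {m : ℕ → ℕ}

lemma Fam.glue (h : Fam a b η m) {G : Set ℂ} (hG : IsOpen G) (h1 : ∀ z ∈ G, ∃ k, z ∈ Sc (a k) (b k))
    {φ : ℂ → ℝ} (h0 : ∀ z ∈ G, 0 ≤ φ z) (h2 : ∀ k, ∃ β, Hm β ∧ ∀ z ∈ Sc (a k) (b k), φ z = β z) :
    Sup G fun z => ENNReal.ofReal (φ z) := by
  refine ⟨fun x hx => ?_, fun x r r0 hr => ?_⟩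
  · obtain ⟨k, hk⟩ := h1 x hx
    obtain ⟨β, h3, h4⟩ := h2 k
    exact (ENNReal.continuous_ofReal.continuousAt.comp (h3.1.continuousAt.congr (Filter.EventuallyEq.symm
      (eventually_of_mem ((Sc_open _ _).mem_nhds hk) h4)))).continuousWithinAt.lowerSemicontinuousWithinAt
  · have h3 := ball_subset_closedBall.trans hr
    obtain ⟨k, hk⟩ := h1 x (h3 (mem_ball_self r0))
    obtain ⟨β, h4, h5⟩ := h2 k
    have h6 : ball x r ⊆ Sc (a k) (b k) := (convex_ball x r).isPreconnected.subset_left_of_subset_union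
      (v := ⋃ l ∈ {l | l ≠ k}, Sc (a l) (b l)) (Sc_open _ _) (isOpen_biUnion fun _ _ => Sc_open _ _)
      (disjoint_left.2 fun z k1 k2 => by
        obtain ⟨l, k3, k4⟩ := mem_iUnion₂.1 k2
        exact k3 (h.uniq (subset_closure k4) k1))
      (fun z hz => by
        obtain ⟨l, hl⟩ := h1 z (h3 hz)
        by_cases k1 : l = k
        · exact Or.inl (k1 ▸ hl)
        · exact Or.inr (mem_iUnion₂.2 ⟨l, k1, hl⟩)) ⟨x, mem_ball_self r0, hk⟩
    beta_reduce
    rw [setLIntegral_congr_fun measurableSet_ball (g := fun z => ENNReal.ofReal (β z))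
      fun z hz => by simp only [h5 z (h6 hz)], h4.lint fun z hz => h5 z (h6 hz) ▸ h0 z (h3 hz), h5 x hk]

lemma Fam.not (h : Fam a b η m) {r : ℝ} (r0 : 0 < r) (r1 : r ≤ 1) : ¬BReg (ball 0 r ∩ Om a b) 0 := by
  intro hB
  obtain ⟨G, hG⟩ : ∃ G, G = ball 0 r ∩ Om a b := ⟨_, rfl⟩
  have Go : IsOpen G := hG ▸ isOpen_ball.inter Om_open
  have G0 : ∀ z ∈ closure G, ‖z‖ ≤ r := fun z hz => mem_closedBall_zero_iff.1
    (closure_ball_subset_closedBall (closure_mono (hG ▸ inter_subset_left) hz))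
  have G1 : ∀ z ∈ G, ∃ k, z ∈ Sc (a k) (b k) := fun z hz => Om_mem (hG ▸ hz).2
    ((re_le_norm z).trans ((G0 z (subset_closure hz)).trans r1))
  obtain ⟨p, hp⟩ : ∃ p : ℕ → ℂ, ∀ k, p k = (r / (4 * (k + 1)) : ℝ) * (1 + η k * I) := ⟨_, fun _ => rfl⟩
  have p1 := fun k : ℕ => h.pt k (t := r / (4 * (k + 1))) (by positivity) (by
    rw [div_le_one (by positivity)]; linarith [k.cast_nonneg (α := ℝ)])
  simp only [← hp] at p1
  obtain ⟨F, hF⟩ : ∃ F : ℕ → ℂ → ℝ, ∀ k z, F k z = k / (p k ^ (64 * m k)).im * (z ^ (64 * m k)).im :=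
    ⟨_, fun _ _ => rfl⟩
  have F1 : ∀ k (s t : ℝ), Hm fun z => s * F k z + t := fun k s t => by
    simpa [hF, mul_assoc] using (hm_im 1 0 (64 * m k)).lin (hm_const t) (s * (k / (p k ^ (64 * m k)).im)) 1
  have F2 : ∀ k, Continuous (F k) := fun k => by simpa using (F1 k 1 0).1
  have F3 : ∀ k, ∀ z ∈ closure (Sc (a k) (b k)), 0 ≤ F k z := fun k z hz => by
    rw [hF]; exact mul_nonneg (div_nonneg k.cast_nonneg (p1 k).2.2.le) (h.sg hz).1
  obtain ⟨H, H1, H2⟩ : ∃ H : ℂ → ℝ, (∀ k, ∀ z ∈ Sc (a k) (b k), H z = F k z) ∧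
      ∀ z, (∀ k, z ∉ Sc (a k) (b k)) → H z = 0 := by
    classical
    refine ⟨fun z => if h : ∃ k, z ∈ Sc (a k) (b k) then F h.choose z else 0, fun k z hz => ?_,
      fun z hz => dif_neg (not_exists.2 hz)⟩
    have h1 : ∃ k, z ∈ Sc (a k) (b k) := ⟨k, hz⟩
    simp only [dif_pos h1, h.uniq (subset_closure h1.choose_spec) hz]
  have H3 : ∀ k, ∀ z ∈ closure (Sc (a k) (b k)), ‖z‖ ≤ r → H z = F k z := fun k z hz h1 => by
    by_cases h2 : z ∈ Sc (a k) (b k)
    · exact H1 k z h2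
    · rw [H2 z fun l hl => h2 (h.uniq hz hl ▸ hl), hF,
        (h.sg hz).2 h2 ((re_le_norm z).trans (h1.trans r1)), mul_zero]
  have H4 : ∀ z, 0 ≤ H z := fun z => by
    by_cases h1 : ∃ k, z ∈ Sc (a k) (b k)
    · obtain ⟨k, hk⟩ := h1
      exact H1 k z hk ▸ F3 k z (subset_closure hk)
    · exact (H2 z (not_exists.1 h1)).ge
  have L : ∀ (s : ℝ) x, x ∈ G → ((s * H x : ℝ) : EReal) ≤ U G (fun z => (s * H z : ℝ)) x := fun s x hx => by
    refine le_iInf fun v => le_iInf₂ fun μ hv => er.2 ?_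
    obtain ⟨k, hk⟩ := G1 x hx
    have ho := Go.inter (Sc_open (a k) (b k))
    rw [H1 k x hk]
    refine mp1 ho ((isBounded_closedBall (x := 0) (r := r)).subset fun z hz =>
      mem_closedBall_zero_iff.2 (G0 z (subset_closure hz.1))) (hv.1.mono inter_subset_left) (F1 k s μ)
      (fun ζ hζ t ht => ?_) x ⟨hx, hk⟩
    rw [ho.frontier_eq] at hζ
    have k1 := closure_mono inter_subset_left hζ.1
    have k2 := closure_mono inter_subset_right hζ.1
    have k3 : ζ ∈ frontier G := Go.frontier_eq ▸ ⟨k1, fun k4 => by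
      obtain ⟨l, hl⟩ := G1 ζ k4
      exact hζ.2 ⟨k4, h.uniq k2 hl ▸ hl⟩⟩
    exact (lim_iff.1 (hv.2 ζ k3) t (H3 k ζ k2 (G0 ζ k1) ▸ ht)).filter_mono
      (nhdsWithin_mono _ inter_subset_left)
  have U1 : Up G (fun z => H z) (fun z => ENNReal.ofReal (H z)) 0 := ⟨h.glue Go G1 (fun z _ => H4 z)
    fun k => ⟨_, F1 k 1 0, fun z hz => by rw [H1 k z hz]; ring⟩, fun ζ hζ => lim_iff.2 fun t ht => by
      by_cases h1 : ∃ k, ζ ∈ Sc (a k) (b k)
      · obtain ⟨k, hk⟩ := h1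
        rw [add_zero, H1 k ζ hk] at ht
        filter_upwards [eventually_nhdsWithin_of_eventually_nhds ((F2 k).continuousAt.eventually
          (lt_mem_nhds ht)), mem_nhdsWithin_of_mem_nhds ((Sc_open _ _).mem_nhds hk)] with z k1 k2
        exact ENNReal.ofReal_le_ofReal (H1 k z k2 ▸ k1.le)
      · rw [add_zero, H2 ζ (not_exists.1 h1)] at ht
        simp [ENNReal.ofReal_of_nonpos ht.le]⟩
  have U2 : ∀ x ∈ G, U G (fun z => (-1 * H z : ℝ)) x ≤ (-1 * H x : ℝ) := fun x hx => by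
    obtain ⟨k, hk⟩ := G1 x hx
    obtain ⟨μ, hμ⟩ := (isCompact_closedBall (0 : ℂ) r).bddAbove_image (F2 k).continuousOn
    replace hμ : ∀ z ∈ G, F k z ≤ μ := fun z hz =>
      hμ (mem_image_of_mem _ (mem_closedBall_zero_iff.2 (G0 z (subset_closure hz))))
    have μ0 := (F3 k x (subset_closure hk)).trans (hμ x hx)
    have h1 : Up G (fun z => (-1 * H z : ℝ)) (fun z => ENNReal.ofReal
        (μ - (Sc (a k) (b k)).indicator (F k) z)) μ := ⟨h.glue Go G1 (fun z hz => sub_nonneg.2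
      (indicator_apply_le' (fun _ => hμ z hz) fun _ => μ0)) fun l => by
        by_cases k1 : l = k
        · exact ⟨_, F1 k (-1) μ, fun z hz => by rw [indicator_of_mem (k1 ▸ hz)]; ring⟩
        · exact ⟨_, hm_const μ, fun z hz => by
            rw [indicator_of_notMem fun k2 => k1 (h.uniq (subset_closure hz) k2), sub_zero]⟩,
      fun ζ hζ => lim_iff.2 fun t ht => eventually_nhdsWithin_of_eventually_nhds <| by
        have k0 := H4 ζ
        by_cases k1 : ζ ∈ closure (Sc (a k) (b k))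
        · filter_upwards [(F2 k).continuousAt.eventually (gt_mem_nhds (show F k ζ < μ - t by
            linarith [H3 k ζ k1 (G0 ζ hζ.1)]))] with z hz
          exact ENNReal.ofReal_le_ofReal (le_sub_comm.1
            (indicator_apply_le' (fun _ => hz.le) fun _ => by linarith))
        · filter_upwards [isClosed_closure.isOpen_compl.mem_nhds k1] with z hz
          rw [indicator_of_notMem fun k2 => hz (subset_closure k2)]
          exact ENNReal.ofReal_le_ofReal (by linarith)⟩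
    refine (U_le h1 x).trans (le_of_eq ?_)
    rw [indicator_of_mem hk, EReal.coe_ennreal_ofReal, max_eq_left (sub_nonneg.2 (hμ x hx)),
      ← EReal.coe_sub, H1 k x hk]
    congr 1; ring
  obtain ⟨ρ, ρ0, M, hM⟩ := (hG ▸ hB) (fun z => H z) H ⟨fun x hx => by
      obtain ⟨k, hk⟩ := G1 x hx
      rw [InnerProductSpace.harmonicAt_congr_nhds (f₂ := (k / (p k ^ (64 * m k)).im) •
        fun z : ℂ => (z ^ (64 * m k)).im) (eventually_of_mem ((Sc_open _ _).mem_nhds hk)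
          fun z hz => (H1 k z hz).trans (hF k z))]
      exact (AnalyticAt.harmonicAt_im (by fun_prop)).const_smul, fun x hx => ⟨le_antisymm
      ((U_le U1 x).trans (by simp [H4 x])) (by simpa using L 1 x hx), by
        rw [show (-fun z => (H z : EReal)) = fun z => ((-1 * H z : ℝ) : EReal) by ext; simp,
          le_antisymm (U2 x hx) (L (-1) x hx)]
        simp⟩⟩ ⟨r, r0, 0, fun ζ hζ => by
      rw [Go.frontier_eq] at hζ
      simp [H2 ζ fun k hk => hζ.2.2 (hG ▸ ⟨hζ.1, Om_sub k hk⟩)]⟩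
  obtain ⟨k, hk⟩ := exists_nat_gt (max M (1 / ρ))
  have k1 := (div_lt_iff₀ ρ0).1 ((le_max_right _ _).trans_lt hk)
  have k0 := k.cast_nonneg (α := ℝ)
  have k2 : ∀ s, 0 < s → r ≤ s * (k + 1) → p k ∈ ball 0 s := fun s s0 hs => mem_ball_zero_iff.2
    ((p1 k).2.1.trans_lt (by rw [← mul_div_assoc, div_lt_iff₀ (by positivity)]; nlinarith))
  have k3 := hM (p k) ⟨k2 ρ ρ0 (by nlinarith), hG ▸ ⟨k2 r r0 (by nlinarith), Om_sub k (p1 k).1⟩⟩
  rw [H1 k _ (p1 k).1, hF, div_mul_cancel₀ _ (p1 k).2.2.ne', abs_of_nonneg k0] at k3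
  linarith [le_max_left M (1 / ρ)]

theorem main : ∃ (Ω : Set ℂ) (y : ℂ), IsOpen Ω ∧ Bornology.IsBounded Ω ∧ y ∈ frontier Ω ∧ BReg Ω y ∧
    ¬∃ r : ℕ → ℝ, (∀ m, 0 < r m) ∧ Tendsto r atTop (𝓝 0) ∧ ∀ m, BReg (ball y (r m) ∩ Ω) y := by
  obtain ⟨a, b, η, m, h⟩ := fam
  refine ⟨Om a b, 0, Om_open, (isBounded_closedBall (x := 0) (r := 4)).subset fun z hz =>
    mem_closedBall_zero_iff.2 ?_, ?_, h.reg, fun ⟨r, r0, r1, r2⟩ => ?_⟩
  · rcases hz with hz | hz
    · obtain ⟨k, hk⟩ := mem_iUnion.1 hz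
      linarith [h.nrm (subset_closure hk), hk.2.2]
    · refine (norm_le_abs_re_add_abs_im _).trans ?_
      rw [abs_of_pos (by linarith [hz.1]), abs_of_pos hz.2.2.1]
      linarith [hz.2.1, hz.2.2.2]
  · rw [Om_open.frontier_eq]
    refine ⟨Metric.mem_closure_iff.2 fun ε ε0 => ?_, fun h0 => ?_⟩
    · have := h.pt 0 (t := min 1 (ε / 3)) (by positivity) (min_le_left _ _)
      refine ⟨_, Om_sub 0 this.1, ?_⟩
      rw [dist_zero_left]
      linarith [this.2.1, min_le_right 1 (ε / 3)]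
    · obtain ⟨k, hk⟩ := Om_mem h0 (by simp)
      simpa using hk.1
  · obtain ⟨k, hk⟩ := (r1.eventually (gt_mem_nhds one_pos)).exists
    exact h.not (r0 k) hk.le (r2 k)

end Pool.Agent.H.MP_1ca924_an
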